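import Mathlib
import Pool.Agent.W_MP_cf7092_nt.Basic

set_option autoImplicit false

namespace Pool.Agent.Results.MP_cf7092_nt.PermAbsDiffModPrime

open Pool.Agent.W_MP_cf7092_nt

/-- For every odd prime `p`, the permanent of the `p × p` integer matrix with entries
`|j - k|` (`1 ≤ j, k ≤ p`) satisfies `2 * per + 1 ≡ 0` modulo `p`. The index `j : Fin p`
stands for the row (column) number `j + 1`. -/
theorem result : ∀ p : ℕ, p.Prime → p ≠ 2 →
    2 * Matrix.permanent
        (Matrix.of fun j k : Fin p => |(((j : ℕ) : ℤ) + 1) - (((k : ℕ) : ℤ) + 1)|) + 1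
      ≡ 0 [ZMOD (p : ℤ)] := by
  intro p hp h2
  have hfact : Fact p.Prime := ⟨hp⟩
  rw [← ZMod.intCast_eq_intCast_iff]
  have key := two_sum_w p h2
  rw [Int.cast_add, Int.cast_mul, Int.cast_one, Int.cast_zero, Int.cast_ofNat]
  rw [← key]
  congr 2
  unfold Matrix.permanent
  rw [Int.cast_sum]
  have e : ∀ s : Equiv.Perm (Fin p), ((∏ i, (Matrix.of fun j k : Fin p =>
      |(((j : ℕ) : ℤ) + 1) - (((k : ℕ) : ℤ) + 1)|) (s i) i : ℤ) : ZMod p)
      = w p ((ZMod.finEquiv p).toEquiv.permCongr s) := by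
    intro s
    obtain ⟨q, rfl⟩ : ∃ q, p = q + 1 := ⟨p - 1, by have := hp.pos; omega⟩
    rw [Int.cast_prod]
    unfold w ent
    refine Fintype.prod_equiv (ZMod.finEquiv (q + 1)).toEquiv _ _ ?_
    intro x
    simp only [Matrix.of_apply, Equiv.permCongr_apply, Equiv.symm_apply_apply]
    congr 2
    have hv : ∀ y : Fin (q + 1), (((ZMod.finEquiv (q + 1)).toEquiv y : ZMod (q + 1))).val = y.val :=
      fun y => rfl
    rw [hv, hv]
    ring
  rw [Finset.sum_congr rfl (fun s _ => e s)]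
  exact Fintype.sum_equiv ((ZMod.finEquiv p).toEquiv.permCongr) _ _ (fun s => rfl)

end Pool.Agent.Results.MP_cf7092_nt.PermAbsDiffModPrime
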